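import Mathlib

namespace Pool.Agent.Results.MP_fc8d4d_co.Counter
open SimpleGraph

/-- distance from a vertex to a set of vertices. -/
noncomputable def dset {V : Type} (G : SimpleGraph V) (v : V) (C : Set V) : ℕ :=
  sInf (G.dist v '' C)

/-- G has a locating colouring with k (nonempty) colour classes. -/
def HasLoc {V : Type} (G : SimpleGraph V) (k : ℕ) : Prop :=
  ∃ c : V → Fin k, Function.Surjective c ∧ (∀ u v, G.Adj u v → c u ≠ c v) ∧
    ∀ u v, (∀ i, dset G u (c ⁻¹' {i}) = dset G v (c ⁻¹' {i})) → u = v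

/-- the locating chromatic number. -/
noncomputable def chiL {V : Type} (G : SimpleGraph V) : ℕ := sInf {k | HasLoc G k}

section
variable {V : Type} {G : SimpleGraph V}

lemma dset_le {v u : V} {C : Set V} (h : u ∈ C) : dset G v C ≤ G.dist v u :=
  Nat.sInf_le ⟨u, h, rfl⟩

lemma dset_ex (v : V) {C : Set V} (h : C.Nonempty) : ∃ u ∈ C, G.dist v u = dset G v C :=
  Nat.sInf_mem (h.image _)

lemma dset_lip (hc : G.Connected) (v w : V) {C : Set V} (h : C.Nonempty) :
    dset G v C ≤ G.dist v w + dset G w C := by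
  obtain ⟨u, h1, h2⟩ := dset_ex (G := G) w h
  exact (dset_le h1).trans (h2 ▸ hc.dist_triangle)

lemma dset_one (v u : V) : dset G v {u} = G.dist v u := by simp [dset]

lemma dset_zero (hc : G.Connected) {v : V} {C : Set V} (h : C.Nonempty) :
    dset G v C = 0 ↔ v ∈ C := by
  refine ⟨fun e => ?_, fun e => Nat.le_zero.mp ((dset_le e).trans (by simp))⟩
  obtain ⟨u, h1, h2⟩ := dset_ex (G := G) v h
  rwa [hc.dist_eq_zero_iff.mp (h2.trans e)]

lemma same (hc : G.Connected) {k : ℕ} {c : V → Fin k} (hs : Function.Surjective c) {u v : V}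
    (h : ∀ i, dset G u (c ⁻¹' {i}) = dset G v (c ⁻¹' {i})) : c u = c v :=
  (dset_zero hc (hs (c v))).mp ((h _).trans ((dset_zero hc (hs (c v))).mpr rfl))

lemma has [Fintype V] (hc : G.Connected) : HasLoc G (Fintype.card V) :=
  ⟨Fintype.equivFin V, (Fintype.equivFin V).surjective, fun _ _ h e => h.ne (by simpa using e),
    fun _ _ h => by simpa using same hc (Fintype.equivFin V).surjective h⟩

lemma ball (hc : G.Connected) {k : ℕ} (h : HasLoc G k) {ι : Type} [Fintype ι] (o : V) (f : ι → V)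
    (hf : Function.Injective f) (hd : ∀ x, G.dist o (f x) ≤ 2) : Fintype.card ι ≤ 5 ^ k := by
  obtain ⟨c, h1, -, h2⟩ := h
  have b : ∀ x i, dset G (f x) (c ⁻¹' {i}) ≤ 2 + dset G o (c ⁻¹' {i}) ∧
      dset G o (c ⁻¹' {i}) ≤ 2 + dset G (f x) (c ⁻¹' {i}) := fun x i =>
    ⟨(dset_lip hc _ o (h1 i)).trans (Nat.add_le_add_right (dist_comm.le.trans (hd x)) _),
      (dset_lip hc _ (f x) (h1 i)).trans (Nat.add_le_add_right (hd x) _)⟩
  have := Fintype.card_le_of_injective (fun x i => (⟨dset G (f x) (c ⁻¹' {i}) + 2 -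
    dset G o (c ⁻¹' {i}), by have := b x i; omega⟩ : Fin 5)) fun x y e => hf (h2 _ _ fun i => by
      have := congrArg Fin.val (congrFun e i)
      have := b x i
      have := b y i
      simp only at *
      omega)
  simpa using this

lemma dist_two (hc : G.Connected) {u v : V} (h : u ≠ v) :
    G.dist u v ≤ 2 ↔ G.Adj u v ∨ ∃ w, G.Adj u w ∧ G.Adj w v := by
  constructor
  · intro e
    obtain ⟨p, hp⟩ := hc.exists_walk_length_eq_dist u v
    rw [← hp] at e
    match p, e with
    | .nil, _ => exact absurd rfl h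
    | .cons a .nil, _ => exact .inl a
    | .cons a (.cons b .nil), _ => exact .inr ⟨_, a, b⟩
    | .cons _ (.cons _ (.cons _ _)), e => simp at e
  · rintro (a | ⟨w, a, b⟩)
    · exact (dist_eq_one_iff_adj.mpr a).le.trans (by simp)
    · exact dist_le (.cons a (.cons b .nil))
end

inductive W
  | h
  | u (i : Fin 14)
  | w (i : Fin 14)
  | x (f : Fin 14 → Fin 3)

instance : Finite W := Finite.of_surjective
  (fun z : Option (Fin 14 ⊕ Fin 14 ⊕ (Fin 14 → Fin 3)) => match z with
    | none => W.h | some (.inl i) => .u i | some (.inr (.inl i)) => .w i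
    | some (.inr (.inr f)) => .x f) (by
  rintro (_ | i | i | f)
  exacts [⟨none, rfl⟩, ⟨some (.inl i), rfl⟩, ⟨some (.inr (.inl i)), rfl⟩,
    ⟨some (.inr (.inr f)), rfl⟩])

def R : W → W → Prop
  | .h, .x _ => True
  | .u i, .x f => f i = 0
  | .w i, .x f => f i = 1
  | .w i, .u j => i = j
  | _, _ => False

def G : SimpleGraph W where
  Adj a b := R a b ∨ R b a
  symm := ⟨fun _ _ => Or.symm⟩
  loopless := ⟨by rintro (_ | _ | _ | _) <;> simp [R]⟩

lemma conn : G.Connected := by
  have hx : ∀ f, G.Reachable .h (.x f) := fun f => Adj.reachable (.inl trivial)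
  have k : ∀ v, G.Reachable .h v := by
    rintro (_ | i | i | f)
    · rfl
    · exact (hx 0).trans (Adj.reachable (.inr rfl))
    · exact (hx 1).trans (Adj.reachable (.inr rfl))
    · exact hx f
  have : Nonempty W := ⟨.h⟩
  exact ⟨fun u v => (k u).symm.trans (k v)⟩

def col : W → Fin 16
  | .h => 14
  | .w _ => 14
  | .x _ => 15
  | .u i => i.castAdd 2

lemma cls (i : Fin 14) : col ⁻¹' {i.castAdd 2} = {.u i} := by
  have := i.2
  ext (_ | j | j | f) <;> simp [col, Fin.ext_iff] <;> omega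

lemma loc : HasLoc G 16 := by
  have hs : Function.Surjective col := by
    intro i
    by_cases h : i.val < 14
    · exact ⟨.u ⟨i, h⟩, rfl⟩
    · have : i = 14 ∨ i = 15 := by omega
      rcases this with rfl | rfl
      exacts [⟨.h, rfl⟩, ⟨.x 0, rfl⟩]
  refine ⟨col, hs, ?_, fun a b h => ?_⟩
  · rintro (_ | i | i | f) (_ | j | j | g) <;> simp [G, R, col] <;>
      exact fun _ e => by have := congrArg Fin.val e; simp at this; omega
  have h1 := same conn hs h
  have h2 : ∀ i, G.dist a (.u i) = G.dist b (.u i) := fun i => by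
    simpa only [cls, dset_one] using h (i.castAdd 2)
  have h3 : ∀ i, G.Adj a (.u i) ↔ G.Adj b (.u i) := fun i => by
    rw [← dist_eq_one_iff_adj, ← dist_eq_one_iff_adj, h2]
  rcases a with _ | i | i | f <;> rcases b with _ | j | j | g <;>
    simp [col, Fin.ext_iff] at h1 ⊢ <;> try omega
  · simpa [G, R] using h3 j
  · simpa [G, R] using h3 i
  · have := h3 i
    simp [G, R] at this
    omega
  · funext i
    have k : ∀ f : Fin 14 → Fin 3, G.dist (.x f) (.u i) ≤ 2 ↔ f i = 0 ∨ f i = 1 := by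
      intro f
      rw [dist_two conn (by simp)]
      refine or_congr (by simp [G, R]) ⟨?_, fun e => ⟨.w i, .inr e, .inl rfl⟩⟩
      rintro ⟨_ | j | j | g, a, b⟩ <;> simp_all [G, R]
    have k1 := h3 i
    have k2 := (k f).symm.trans (h2 i ▸ k g)
    simp only [G, R, false_or] at k1
    omega

theorem result : ¬ ∀ (V W : Type) [Finite V] [Finite W] (G : SimpleGraph V) (H : SimpleGraph W),
    G.Connected → H.Connected → chiL (G □ H) ≤ max (chiL G) (chiL H) + 3 := by
  intro h
  have h1 := h W W G G conn conn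
  have h2 : chiL G ≤ 16 := Nat.sInf_le loc
  have hc := conn.boxProd conn
  have := Fintype.ofFinite (W × W)
  have h3 := ball hc (Nat.sInf_mem (s := {k | HasLoc (G □ G) k}) ⟨_, has hc⟩) (.h, .h)
    (fun p : (Fin 14 → Fin 3) × (Fin 14 → Fin 3) => (W.x p.1, W.x p.2))
    (fun p q e => by simpa [Prod.ext_iff] using e) (fun p => (dist_two hc (by simp)).mpr (.inr
      ⟨(W.x p.1, W.h), Or.inl ⟨Or.inl trivial, rfl⟩, Or.inr ⟨Or.inl trivial, rfl⟩⟩))
  have h4 : 5 ^ chiL (G □ G) ≤ 5 ^ 19 := Nat.pow_le_pow_right (by simp) (by omega)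
  have h5 := h3.trans h4
  simp at h5

end Pool.Agent.Results.MP_fc8d4d_co.Counter
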